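import Mathlib
import Pool.Agent.Helper9.GaborAbs
import Pool.Agent.Helper9.GaborFrame

set_option autoImplicit false

namespace Pool.Agent.Results.MP_6c6e33_an.NoBoundedOrbit

open MeasureTheory Complex

/-- `L²(ℝ)`: complex valued, Lebesgue measure. -/
noncomputable abbrev L2R := Lp ℂ 2 (volume : Measure ℝ)

theorem memLp_translate (a : ℝ) (f : L2R) : MemLp (fun x : ℝ => f (x - a)) 2 volume :=
  (Lp.memLp f).comp_measurePreserving (measurePreserving_sub_right volume a)

theorem norm_phase (b x : ℝ) : ‖Complex.exp (2 * Real.pi * I * b * x)‖ = 1 := by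
  have : (2 * Real.pi * I * b * x : ℂ) = ((2 * Real.pi * b * x : ℝ) : ℂ) * I := by
    push_cast; ring
  rw [this, Complex.norm_exp_ofReal_mul_I]

theorem memLp_modulate (b : ℝ) (f : L2R) :
    MemLp (fun x : ℝ => Complex.exp (2 * Real.pi * I * b * x) * f x) 2 volume := by
  refine (Lp.memLp f).of_le ?_ ?_
  · exact (by fun_prop : Continuous fun x : ℝ =>
      Complex.exp (2 * Real.pi * I * b * x)).aestronglyMeasurable.mul (Lp.aestronglyMeasurable f)
  · refine Filter.Eventually.of_forall fun x => ?_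
    rw [norm_mul, norm_phase, one_mul]

/-- Translation `(T_a f)(x) = f(x - a)`. -/
noncomputable def translate (a : ℝ) (f : L2R) : L2R :=
  (memLp_translate a f).toLp (fun x : ℝ => f (x - a))

/-- Modulation `(E_b f)(x) = e^{2πibx} f(x)`. -/
noncomputable def modulate (b : ℝ) (f : L2R) : L2R :=
  (memLp_modulate b f).toLp (fun x : ℝ => Complex.exp (2 * Real.pi * I * b * x) * f x)

/-- The Gabor system `(m, n) ↦ E_{mb} T_{na} g`. -/
noncomputable def gabor (a b : ℝ) (g : L2R) (p : ℤ × ℤ) : L2R :=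
  modulate (p.1 * b) (translate (p.2 * a) g)

section Hilbert

variable {H : Type} [NormedAddCommGroup H] [InnerProductSpace ℂ H]

/-- Frame for the Hilbert space `H`. -/
def IsFrame {J : Type} (f : J → H) : Prop :=
  ∃ A B : ℝ, 0 < A ∧ 0 < B ∧ ∀ h : H,
    Summable (fun k => ‖(inner ℂ (f k) h : ℂ)‖ ^ 2) ∧
    A * ‖h‖ ^ 2 ≤ ∑' k, ‖(inner ℂ (f k) h : ℂ)‖ ^ 2 ∧
    ∑' k, ‖(inner ℂ (f k) h : ℂ)‖ ^ 2 ≤ B * ‖h‖ ^ 2

/-- Riesz basis of `H`: complete, with the two-sided Riesz inequality on finite combinations. -/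
def IsRieszBasis {J : Type} (f : J → H) : Prop :=
  (Submodule.span ℂ (Set.range f)).topologicalClosure = ⊤ ∧
  ∃ A B : ℝ, 0 < A ∧ 0 < B ∧ ∀ c : J →₀ ℂ,
    A * ∑ k ∈ c.support, ‖c k‖ ^ 2 ≤ ‖∑ k ∈ c.support, c k • f k‖ ^ 2 ∧
    ‖∑ k ∈ c.support, c k • f k‖ ^ 2 ≤ B * ∑ k ∈ c.support, ‖c k‖ ^ 2

/-- Overcomplete frame: a frame that is not a Riesz basis. -/
def IsOvercompleteFrame {J : Type} (f : J → H) : Prop := IsFrame f ∧ ¬ IsRieszBasis f

/-- The sequence `(f_k)_{k ∈ I}` has a bounded representation `f_k = T^k φ`: there is a linear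
`T : span {f_k} → H`, bounded, with `T f_k = f_{k+1}` for all `k ∈ I`. -/
def HasBoundedRepresentation {ι : Type} [Add ι] [One ι] (f : ι → H) : Prop :=
  ∃ T : Submodule.span ℂ (Set.range f) →ₗ[ℂ] H,
    (∃ C : ℝ, ∀ x, ‖T x‖ ≤ C * ‖(x : H)‖) ∧
    ∀ k : ι, T ⟨f k, Submodule.subset_span ⟨k, rfl⟩⟩ = f (k + 1)

end Hilbert

/-! ### Translation and modulation -/

theorem translate_ae (a : ℝ) (f : L2R) : translate a f =ᵐ[volume] fun x : ℝ => f (x - a) :=
  MemLp.coeFn_toLp _

theorem modulate_ae (b : ℝ) (f : L2R) :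
    modulate b f =ᵐ[volume] fun x : ℝ => Complex.exp (2 * Real.pi * I * b * x) * f x :=
  MemLp.coeFn_toLp _

theorem norm_translate (a : ℝ) (f : L2R) : ‖translate a f‖ = ‖f‖ := by
  rw [translate, Lp.norm_toLp, Lp.norm_def]
  congr 1
  exact eLpNorm_comp_measurePreserving (Lp.aestronglyMeasurable f)
    (measurePreserving_sub_right volume a)

theorem norm_modulate (b : ℝ) (f : L2R) : ‖modulate b f‖ = ‖f‖ := by
  rw [modulate, Lp.norm_toLp, Lp.norm_def]
  congr 1
  apply eLpNorm_congr_norm_ae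
  refine Filter.Eventually.of_forall fun x => ?_
  rw [norm_mul, norm_phase, one_mul]

theorem comp_sub_ae {f g : ℝ → ℂ} (h : f =ᵐ[volume] g) (a : ℝ) :
    (fun x => f (x - a)) =ᵐ[volume] fun x => g (x - a) :=
  (measurePreserving_sub_right volume a).quasiMeasurePreserving.ae_eq_comp h

/-- `modTrans b t = E_b T_t` -/
noncomputable def modTrans (b t : ℝ) (f : L2R) : L2R := modulate b (translate t f)

theorem modTrans_ae (b t : ℝ) (f : L2R) :
    modTrans b t f =ᵐ[volume] fun x : ℝ => Complex.exp (2 * Real.pi * I * b * x) * f (x - t) := by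
  filter_upwards [modulate_ae b (translate t f), translate_ae t f] with x h1 h2
  rw [modTrans, h1, h2]

theorem norm_modTrans (b t : ℝ) (f : L2R) : ‖modTrans b t f‖ = ‖f‖ := by
  rw [modTrans, norm_modulate, norm_translate]

theorem modTrans_comp (b t b' t' : ℝ) (f : L2R) :
    modTrans b t (modTrans b' t' f) =
      Complex.exp (-(2 * Real.pi * I * b' * t)) • modTrans (b + b') (t + t') f := by
  apply Lp.ext
  refine (modTrans_ae _ _ _).trans ?_
  refine Filter.EventuallyEq.trans ?_ (Lp.coeFn_smul _ _).symm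
  filter_upwards [comp_sub_ae (modTrans_ae b' t' f) t, modTrans_ae (b + b') (t + t') f]
    with x h1 h2
  rw [h1, Pi.smul_apply, h2, smul_eq_mul, ← mul_assoc, ← mul_assoc, ← Complex.exp_add,
    ← Complex.exp_add]
  have e1 : x - t - t' = x - (t + t') := by ring
  rw [e1]
  congr 2
  push_cast
  ring

/-- `modTrans` as a continuous linear map -/
noncomputable def modTransL (b t : ℝ) : L2R →L[ℂ] L2R :=
  LinearMap.mkContinuous
    { toFun := modTrans b t
      map_add' := by
        intro f g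
        apply Lp.ext
        refine (modTrans_ae _ _ _).trans ?_
        refine Filter.EventuallyEq.trans ?_ (Lp.coeFn_add _ _).symm
        filter_upwards [comp_sub_ae (Lp.coeFn_add f g) t, modTrans_ae b t f, modTrans_ae b t g]
          with x h1 h2 h3
        rw [h1, Pi.add_apply, Pi.add_apply, h2, h3]
        ring
      map_smul' := by
        intro c f
        apply Lp.ext
        refine (modTrans_ae _ _ _).trans ?_
        refine Filter.EventuallyEq.trans ?_ (Lp.coeFn_smul _ _).symm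
        filter_upwards [comp_sub_ae (Lp.coeFn_smul c f) t, modTrans_ae b t f]
          with x h1 h2
        rw [h1, Pi.smul_apply, Pi.smul_apply, h2]
        simp only [smul_eq_mul, RingHom.id_apply]
        ring } 1 (by
      intro f
      show ‖modTrans b t f‖ ≤ 1 * ‖f‖
      rw [norm_modTrans, one_mul])

theorem modTransL_apply (b t : ℝ) (f : L2R) : modTransL b t f = modTrans b t f := rfl

theorem gabor_eq (a b : ℝ) (g : L2R) (p : ℤ × ℤ) :
    gabor a b g p = modTrans (p.1 * b) (p.2 * a) g := rfl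

theorem norm_gabor (a b : ℝ) (g : L2R) (p : ℤ × ℤ) : ‖gabor a b g p‖ = ‖g‖ := by
  rw [gabor_eq, norm_modTrans]

/-- phases -/
noncomputable def phase (a b : ℝ) (l l' : ℤ × ℤ) : ℂ :=
  Complex.exp (-(2 * Real.pi * I * (l'.1 * b : ℝ) * (l.2 * a : ℝ)))

theorem norm_phase' (a b : ℝ) (l l' : ℤ × ℤ) : ‖phase a b l l'‖ = 1 := by
  rw [phase]
  have : (-(2 * Real.pi * I * (l'.1 * b : ℝ) * (l.2 * a : ℝ)) : ℂ) =
      ((-(2 * Real.pi * (l'.1 * b) * (l.2 * a)) : ℝ) : ℂ) * I := by
    push_cast; ring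
  rw [this, Complex.norm_exp_ofReal_mul_I]

theorem shift_gabor (a b : ℝ) (g : L2R) (l l' : ℤ × ℤ) :
    modTransL (l.1 * b) (l.2 * a) (gabor a b g l') = phase a b l l' • gabor a b g (l' + l) := by
  rw [modTransL_apply, gabor_eq, gabor_eq, modTrans_comp, phase]
  congr 2
  · push_cast
    simp only [Prod.fst_add]
    push_cast
    ring
  · simp only [Prod.snd_add]
    push_cast
    ring

theorem exists_ne_zero : ∃ h : L2R, h ≠ 0 := by
  have hfin : (volume : Measure ℝ) (Set.Icc (0 : ℝ) 1) ≠ ⊤ := by simp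
  refine ⟨indicatorConstLp 2 (measurableSet_Icc : MeasurableSet (Set.Icc (0 : ℝ) 1)) hfin
    (1 : ℂ), ?_⟩
  rw [← norm_ne_zero_iff, norm_indicatorConstLp (by norm_num) (by norm_num)]
  simp

/-- no bounded representation for any overcomplete Gabor frame -/
theorem result (a b : ℝ) (_ha : 0 < a) (_hb : 0 < b) (g : L2R)
    (hg : IsOvercompleteFrame (gabor a b g)) :
    (∀ σ : ℕ ≃ ℤ × ℤ, ¬ HasBoundedRepresentation (fun k : ℕ => gabor a b g (σ k))) ∧
    (∀ σ : ℤ ≃ ℤ × ℤ, ¬ HasBoundedRepresentation (fun k : ℤ => gabor a b g (σ k))) := by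
  obtain ⟨⟨A, B, hA, hB, hf⟩, hover⟩ := hg
  obtain ⟨D, hD, hD'⟩ := Pool.Agent.Helper9.GaborFrame.exists_synthesis (gabor a b g) A B hA hf
  have hker : ∃ x, D x = 0 ∧ x ≠ 0 := by
    by_contra hcon
    push Not at hcon
    exact hover (hD' hcon)
  obtain ⟨x0, hx0, hx0'⟩ := hker
  have hg : g ≠ 0 := by
    intro hg0
    obtain ⟨h, hh⟩ := exists_ne_zero
    have h0 : ∀ l, gabor a b g l = 0 := by
      intro l
      rw [← norm_eq_zero, norm_gabor, hg0, norm_zero]
    have := (hf h).2.1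
    simp only [h0, inner_zero_left, norm_zero] at this
    simp only [ne_eq, OfNat.ofNat_ne_zero, not_false_eq_true, zero_pow, tsum_zero] at this
    have h3 : 0 < ‖h‖ := norm_pos_iff.2 hh
    nlinarith [mul_pos hA (pow_pos h3 2)]
  let e : HilbertBasis (ℤ × ℤ) ℂ (lp (fun _ : ℤ × ℤ => ℂ) 2) :=
    HilbertBasis.ofRepr (LinearIsometryEquiv.refl ℂ _)
  have he : ∀ l, e l = lp.single 2 l (1 : ℂ) := by
    intro l
    exact (e.repr_symm_single l).symm
  have hDe : ∀ l, D (e l) = gabor a b g l := by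
    intro l
    rw [he, hD]
  have hdense : Dense (Submodule.span ℂ (Set.range (gabor a b g)) : Set L2R) := by
    rw [Submodule.dense_iff_topologicalClosure_eq_top, Submodule.topologicalClosure_eq_top_iff,
      Submodule.eq_bot_iff]
    intro h hh
    rw [Submodule.mem_orthogonal] at hh
    have h0 : ∀ l, (inner ℂ (gabor a b g l) h : ℂ) = 0 := fun l =>
      hh _ (Submodule.subset_span ⟨l, rfl⟩)
    have := (hf h).2.1
    simp only [h0, norm_zero] at this
    simp only [ne_eq, OfNat.ofNat_ne_zero, not_false_eq_true, zero_pow, tsum_zero] at this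
    by_contra hne
    have h3 : 0 < ‖h‖ := norm_pos_iff.2 hne
    nlinarith [mul_pos hA (pow_pos h3 2)]
  -- extension of the bounded operator
  have hext : ∀ (ι : Type) [Add ι] [One ι] (σ : ι ≃ ℤ × ℤ),
      HasBoundedRepresentation (fun k : ι => gabor a b g (σ k)) →
      ∃ T : L2R →L[ℂ] L2R, ∀ k, T (D (e (σ k))) = D (e (σ (k + 1))) := by
    intro ι _ _ σ ⟨T, ⟨C, hC⟩, hT⟩
    have hr : Set.range (fun k : ι => gabor a b g (σ k)) = Set.range (gabor a b g) :=
      σ.surjective.range_comp (gabor a b g)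
    have hdense' : DenseRange (Submodule.span ℂ
        (Set.range (fun k : ι => gabor a b g (σ k)))).subtype := by
      have : Set.range (Submodule.span ℂ
        (Set.range (fun k : ι => gabor a b g (σ k)))).subtype =
        (Submodule.span ℂ (Set.range (gabor a b g)) : Set L2R) := by
        rw [hr]
        simp
      rw [DenseRange, this]
      exact hdense
    refine ⟨LinearMap.extendOfNorm T (Submodule.subtype _), fun k => ?_⟩
    have h1 := LinearMap.extendOfNorm_eq (f := T)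
      (e := (Submodule.span ℂ (Set.range (fun k : ι => gabor a b g (σ k)))).subtype) hdense'
      ⟨C, hC⟩ ⟨gabor a b g (σ k), Submodule.subset_span ⟨k, rfl⟩⟩
    rw [hDe, hDe]
    exact h1.trans (hT k)
  have hnorm : ∀ l, ‖g‖ ≤ ‖D (e l)‖ := by
    intro l
    rw [hDe, norm_gabor]
  constructor
  · intro σ hrep
    obtain ⟨T, hT⟩ := hext ℕ σ hrep
    exact Pool.Agent.Helper9.GaborAbs.abstract_nat σ e D T hT ‖g‖ (norm_pos_iff.2 hg) hnorm x0
      hx0 hx0'
  · intro σ hrep
    obtain ⟨T, hT⟩ := hext ℤ σ hrep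
    refine Pool.Agent.Helper9.GaborAbs.abstract_int σ e D T hT
      (fun l => modTransL (l.1 * b) (l.2 * a)) (phase a b) (norm_phase' a b) ?_ ?_ ‖g‖
      (norm_pos_iff.2 hg) hnorm x0 hx0 hx0'
    · intro l l'
      rw [hDe, hDe]
      exact shift_gabor a b g l l'
    · intro l x hx
      rw [← norm_eq_zero]
      rw [← norm_eq_zero, modTransL_apply, norm_modTrans] at hx
      exact hx

end Pool.Agent.Results.MP_6c6e33_an.NoBoundedOrbit
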